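import Pool.Agent.Helper85.RL.Stmts3
import Pool.Agent.Helper85.RL.Bas

/-! The removal lemma for a family from the removal lemma for a homomorphic image inside it. -/

set_option autoImplicit false

namespace Pool.Agent.Helper52.RL

open Finset Pool.Helper16.HR Pool.Helper85.RL

section

variable {h n : ℕ}

open Classical in
theorem copies_card (E : Finset (Finset (Fin h))) (G : Finset (Finset (Fin n))) :
    copies E G = ((univ : Finset (Fin h → Fin n)).filter
      (fun φ => Function.Injective φ ∧ ∀ e ∈ E, e.image φ ∈ G)).card := by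
  unfold copies
  rw [Nat.card_eq_fintype_card, Fintype.card_subtype]

open Classical in
/-- copies are at most homomorphic copies -/
theorem copies_le (E : Finset (Finset (Fin h))) (G : Finset (Finset (Fin n))) :
    copies E G ≤ ((univ : Finset (Fin h → Fin n)).filter
      (fun φ => ∀ e ∈ E, e.image φ ∈ G)).card := by
  rw [copies_card]
  exact card_le_card fun φ hφ => mem_filter.2 ⟨mem_univ _, (mem_filter.1 hφ).2.2⟩

open Classical in
theorem hom_le (hN : ST_NINJ) (hn : 1 ≤ n) (E : Finset (Finset (Fin h)))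
    (G : Finset (Finset (Fin n))) :
    2 * ((univ : Finset (Fin h → Fin n)).filter (fun φ => ∀ e ∈ E, e.image φ ∈ G)).card * n ≤
      2 * copies E G * n + h ^ 2 * n ^ h := by
  have h1 : ((univ : Finset (Fin h → Fin n)).filter (fun φ => ∀ e ∈ E, e.image φ ∈ G)).card ≤
      copies E G + ((univ : Finset (Fin h → Fin n)).filter
        (fun φ => ¬ Function.Injective φ)).card := by
    rw [copies_card]
    refine (card_le_card ?_).trans (card_union_le _ _)
    intro φ hφ
    by_cases hi : Function.Injective φ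
    · exact mem_union_left _ (mem_filter.2 ⟨mem_univ _, hi, (mem_filter.1 hφ).2⟩)
    · exact mem_union_right _ (mem_filter.2 ⟨mem_univ _, hi⟩)
  have h2 := hN h n hn
  calc 2 * ((univ : Finset (Fin h → Fin n)).filter (fun φ => ∀ e ∈ E, e.image φ ∈ G)).card * n
      ≤ 2 * (copies E G + ((univ : Finset (Fin h → Fin n)).filter
        (fun φ => ¬ Function.Injective φ)).card) * n :=
        Nat.mul_le_mul_right _ (Nat.mul_le_mul_left _ h1)
    _ = 2 * copies E G * n + 2 * ((univ : Finset (Fin h → Fin n)).filter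
        (fun φ => ¬ Function.Injective φ)).card * n := by ring
    _ ≤ _ := Nat.add_le_add_left h2 _

end

theorem CORE (h1 : ST_HOMC) (h2 : ST_NINJ) : ST_CORE := by
  intro h k m X X' E E' f hE0 hsub hE hk hf hX' hX1 hX2 hR n G hG hcop
  classical
  -- if there are no copies the empty set works
  rcases Nat.eq_zero_or_pos (copies E G) with h0 | h0
  · exact ⟨∅, empty_subset _, by simp, by rw [sdiff_empty]; exact h0⟩
  -- the number of vertices is large
  have hXn : X ≤ n ^ h := le_trans (Nat.le_mul_of_pos_left X h0) hcop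
  have hbig : h ^ 2 * X' ^ (h ^ h) < n := by
    by_contra hc
    rw [not_lt] at hc
    exact absurd (lt_of_lt_of_le hX2 (hXn.trans (Nat.pow_le_pow_left hc h))) (lt_irrefl _)
  have hn : 1 ≤ n := by omega
  have hh : 1 ≤ h := by
    obtain ⟨e, he⟩ := hE0
    have h3 := hE e he
    have h4 : e.card ≤ h := by
      have := card_le_univ e
      rwa [Fintype.card_fin] at this
    omega
  have hEk' : ∀ e ∈ E', e.card = k := fun e he => hE e (hsub he)
  have hnR : (0 : ℝ) < (n : ℝ) ^ h := by
    have : (0 : ℝ) < (n : ℝ) := by exact_mod_cast hn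
    positivity
  have hX'R : (0 : ℝ) < (X' : ℝ) := by exact_mod_cast hX'
  have hcard : (Fintype.card (Fin h → Fin n) : ℝ) = (n : ℝ) ^ h := by
    rw [Fintype.card_fun, Fintype.card_fin, Fintype.card_fin]
    push_cast
    rfl
  -- few copies of `E'`
  have hfew : copies E' G * X' ≤ n ^ h := by
    by_contra hc
    rw [not_le] at hc
    have a1 : 1 / (X' : ℝ) ≤ av (one (fun x : Fin h → Fin n => ∀ e ∈ E', e.image x ∈ G)) := by
      rw [av_one_card, hcard, div_le_div_iff₀ hX'R hnR, one_mul]
      have a2 : n ^ h ≤ ((univ : Finset (Fin h → Fin n)).filter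
          (fun φ => ∀ e ∈ E', e.image φ ∈ G)).card * X' :=
        hc.le.trans (Nat.mul_le_mul_right _ (copies_le E' G))
      exact_mod_cast a2
    have a3 := h1 h n k E E' f G hh hn hE hEk' hf hG
    have a4 : (1 / (X' : ℝ)) ^ (h ^ h) ≤
        av (one (fun x : Fin h → Fin n => ∀ e ∈ E, e.image x ∈ G)) :=
      (pow_le_pow_left₀ (by positivity) a1 _).trans a3
    rw [av_one_card, hcard, one_div, inv_pow, ← one_div,
      div_le_div_iff₀ (by positivity) hnR, one_mul] at a4
    have a5 : n ^ h ≤ ((univ : Finset (Fin h → Fin n)).filter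
          (fun φ => ∀ e ∈ E, e.image φ ∈ G)).card * X' ^ (h ^ h) := by
      exact_mod_cast a4
    have a6 := hom_le h2 hn E G
    -- `2 n^h n ≤ 2 copies n X'^ + h^2 n^h X'^`
    have a7 : 2 * n ^ h * n ≤ 2 * copies E G * X' ^ (h ^ h) * n +
        h ^ 2 * X' ^ (h ^ h) * n ^ h := by
      calc 2 * n ^ h * n ≤ 2 * (((univ : Finset (Fin h → Fin n)).filter
          (fun φ => ∀ e ∈ E, e.image φ ∈ G)).card * X' ^ (h ^ h)) * n :=
            Nat.mul_le_mul_right _ (Nat.mul_le_mul_left _ a5)
        _ = (2 * ((univ : Finset (Fin h → Fin n)).filter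
          (fun φ => ∀ e ∈ E, e.image φ ∈ G)).card * n) * X' ^ (h ^ h) := by ring
        _ ≤ (2 * copies E G * n + h ^ 2 * n ^ h) * X' ^ (h ^ h) :=
            Nat.mul_le_mul_right _ a6
        _ = _ := by ring
    have a8 : h ^ 2 * X' ^ (h ^ h) * n ^ h ≤ n * n ^ h := Nat.mul_le_mul_right _ hbig.le
    have a9 : n ^ h * n ≤ 2 * copies E G * X' ^ (h ^ h) * n := by
      have : 2 * n ^ h * n = n ^ h * n + n * n ^ h := by ring
      omega
    have a10 : n ^ h ≤ 2 * copies E G * X' ^ (h ^ h) := Nat.le_of_mul_le_mul_right a9 hn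
    have a11 : copies E G * (2 * X' ^ (h ^ h)) < copies E G * X :=
      Nat.mul_lt_mul_of_pos_left hX1 h0
    have a12 : 2 * copies E G * X' ^ (h ^ h) = copies E G * (2 * X' ^ (h ^ h)) := by ring
    omega
  obtain ⟨D, hD, hDm, hD0⟩ := hR n G hG hfew
  refine ⟨D, hD, hDm, ?_⟩
  rw [copies_card, card_eq_zero, filter_eq_empty_iff] at hD0 ⊢
  intro φ hφ hc
  exact hD0 hφ ⟨hc.1, fun e he => hc.2 e (hsub he)⟩

end Pool.Agent.Helper52.RL
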