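import Pool.Agent.Helper85.RL.Stmts3
import Pool.Agent.Helper85.RL.Bas

/-! Many homomorphic copies of a homomorphic image give many homomorphic copies. -/

set_option autoImplicit false

namespace Pool.Agent.Helper52.RL

open Finset Pool.Helper16.HR Pool.Helper85.RL

/-- the average of a function of the coordinates chosen by an injective map -/
theorem avg_comp {A B V : Type} [Fintype A] [DecidableEq A] [Fintype B] [DecidableEq B]
    [Fintype V] [Nonempty V] (ι : A → B) (hι : Function.Injective ι) (g : (A → V) → ℝ) :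
    (∑ z : B → V, g (fun a => z (ι a))) / (Fintype.card (B → V) : ℝ) =
      (∑ x : A → V, g x) / (Fintype.card (A → V) : ℝ) := by
  classical
  let p : B → Prop := fun b => b ∈ Set.range ι
  let e0 : A ≃ {b // p b} := Equiv.ofInjective ι hι
  let e1 : (A → V) ≃ ({b // p b} → V) := Equiv.arrowCongr e0 (Equiv.refl V)
  let e2 : (B → V) ≃ ({b // p b} → V) × ({b // ¬ p b} → V) :=
    Equiv.piEquivPiSubtypeProd p (fun _ => V)
  let e3 : (B → V) ≃ (A → V) × ({b // ¬ p b} → V) :=
    e2.trans (Equiv.prodCongr e1.symm (Equiv.refl _))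
  have h1 : ∀ z : B → V, (e3 z).1 = fun a => z (ι a) := by
    intro z
    funext a
    rfl
  have h2 : ∑ z : B → V, g (fun a => z (ι a)) =
      ∑ w : (A → V) × ({b // ¬ p b} → V), g w.1 := by
    rw [← Equiv.sum_comp e3 (fun w => g w.1)]
    exact sum_congr rfl fun z _ => by rw [h1 z]
  have h3 : ∑ w : (A → V) × ({b // ¬ p b} → V), g w.1 =
      (∑ x : A → V, g x) * (Fintype.card ({b // ¬ p b} → V) : ℝ) := by
    rw [Fintype.sum_prod_type, sum_mul]
    refine sum_congr rfl fun x _ => ?_
    show ∑ _y : ({b // ¬ p b} → V), g x = g x * (Fintype.card ({b // ¬ p b} → V) : ℝ)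
    rw [sum_const, nsmul_eq_mul, mul_comm]
    rfl
  have h4 : (Fintype.card (B → V) : ℝ) =
      (Fintype.card (A → V) : ℝ) * (Fintype.card ({b // ¬ p b} → V) : ℝ) := by
    rw [Fintype.card_congr e3, Fintype.card_prod]
    push_cast
    rfl
  have h5 : (0 : ℝ) < (Fintype.card ({b // ¬ p b} → V) : ℝ) := by
    exact_mod_cast Fintype.card_pos
  rw [h2, h3, h4, mul_div_mul_right _ _ (ne_of_gt h5)]

theorem HOMC (hB : ST_BLOW) : ST_HOMC := by
  intro h n k E E' f G hh hn hE hE' hf hG
  classical
  have : Nonempty (Fin h) := ⟨⟨0, hh⟩⟩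
  have : Nonempty (Fin n) := ⟨⟨0, hn⟩⟩
  have key := hB (Fin h) (Fin h) (Fin n)
    (one (fun x : Fin h → Fin n => ∀ e ∈ E', e.image x ∈ G)) (fun x => one_nonneg _ _)
  rw [Fintype.card_fin] at key
  refine key.trans ?_
  have h1 : ∀ z : Fin h → Fin h → Fin n,
      ∏ s : Fin h → Fin h, one (fun x : Fin h → Fin n => ∀ e ∈ E', e.image x ∈ G)
        (fun i => z i (s i)) ≤
      one (fun x : Fin h → Fin n => ∀ e ∈ E, e.image x ∈ G) (fun i => z (f i) i) := by
    intro z
    by_cases hz : ∀ s : Fin h → Fin h, ∀ e ∈ E', e.image (fun i => z i (s i)) ∈ G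
    · have h2 : ∀ e ∈ E, e.image (fun i => z (f i) i) ∈ G := by
        intro e he
        have hinj : Set.InjOn f (e : Set (Fin h)) := by
          have hc : (e.image f).card = e.card := by
            rw [hE' _ (hf e he), hE e he]
          exact Finset.card_image_iff.1 hc
        let s : Fin h → Fin h := fun j => if hj : ∃ i ∈ e, f i = j then hj.choose else j
        have hs : ∀ i ∈ e, s (f i) = i := by
          intro i hi
          have hj : ∃ i' ∈ e, f i' = f i := ⟨i, hi, rfl⟩
          have h3 : s (f i) = hj.choose := by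
            show (if hj : ∃ i' ∈ e, f i' = f i then hj.choose else f i) = hj.choose
            rw [dif_pos hj]
          rw [h3]
          exact hinj (by exact_mod_cast hj.choose_spec.1) (by exact_mod_cast hi)
            hj.choose_spec.2
        have h4 := hz s (e.image f) (hf e he)
        rw [Finset.image_image] at h4
        have h5 : e.image ((fun i => z i (s i)) ∘ f) = e.image (fun i => z (f i) i) := by
          refine Finset.image_congr fun i hi => ?_
          show z (f i) (s (f i)) = z (f i) i
          rw [hs i (by exact_mod_cast hi)]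
        rwa [h5] at h4
      rw [one_of (P := fun x : Fin h → Fin n => ∀ e ∈ E, e.image x ∈ G) h2]
      exact prod_le_one (fun s _ => one_nonneg _ _) (fun s _ => one_le_one _ _)
    · rw [not_forall] at hz
      obtain ⟨s, hs⟩ := hz
      have h0 : one (fun x : Fin h → Fin n => ∀ e ∈ E', e.image x ∈ G)
          (fun i => z i (s i)) = 0 := one_not hs
      exact le_of_eq_of_le (prod_eq_zero (i := s) (mem_univ s) h0) (one_nonneg _ _)
  have h6 : (∑ z : Fin h → Fin h → Fin n,
      one (fun x : Fin h → Fin n => ∀ e ∈ E, e.image x ∈ G) (fun i => z (f i) i)) /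
        (Fintype.card (Fin h → Fin h → Fin n) : ℝ) =
      av (one (fun x : Fin h → Fin n => ∀ e ∈ E, e.image x ∈ G)) := by
    have h7 := avg_comp (A := Fin h) (B := Fin h × Fin h) (V := Fin n) (fun i => (f i, i))
      (fun a b hab => (Prod.ext_iff.1 hab).2)
      (one (fun x : Fin h → Fin n => ∀ e ∈ E, e.image x ∈ G))
    have h8 : (∑ z : Fin h → Fin h → Fin n,
        one (fun x : Fin h → Fin n => ∀ e ∈ E, e.image x ∈ G) (fun i => z (f i) i)) =
        ∑ z : Fin h × Fin h → Fin n,
        one (fun x : Fin h → Fin n => ∀ e ∈ E, e.image x ∈ G) (fun i => z (f i, i)) := by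
      rw [← Equiv.sum_comp (Equiv.curry (Fin h) (Fin h) (Fin n))]
      rfl
    have h9 : Fintype.card (Fin h → Fin h → Fin n) = Fintype.card (Fin h × Fin h → Fin n) :=
      (Fintype.card_congr (Equiv.curry (Fin h) (Fin h) (Fin n))).symm
    rw [h8, h9]
    exact h7
  rw [← h6]
  exact div_le_div_of_nonneg_right (sum_le_sum fun z _ => h1 z) (Nat.cast_nonneg _)

end Pool.Agent.Helper52.RL
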